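import Mathlib

/-!
# Variety-seeking jump games in which all types but one are singletons

Let `S` be the set of the agents whose type has one member and `X` the set of the agents of the remaining
type `t₀`. An agent of `X` at the node `v` has utility `d_S(v)`, the number of the neighbours of `v` which are
occupied by agents of `S`; an agent of `S` has utility `d_S(v) + 1` or `d_S(v)`, according to whether `v` has
a neighbour occupied by an agent of `X` or not. So an improving jump never decreases the number of the edges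
between agents of `S`, and if it does not change this number then it increases the number of the edges between
`S` and `X`.
-/

set_option autoImplicit false
set_option linter.unusedSectionVars false

namespace Pool.Agent.Results.MP_1e742c_lc.OneLargeType

open Finset

/-- The utility of agent `i` in the assignment `v`: the number of types other than its own type which occur
among the agents at the neighbours of its node. -/
noncomputable def utility {V N T : Type} (G : SimpleGraph V) (τ : N → T) (v : N → V) (i : N) : ℕ :=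
  {s : T | s ≠ τ i ∧ ∃ j, τ j = s ∧ G.Adj (v i) (v j)}.ncard

open Classical in
/-- `v'` arises from `v` by an improving jump of some agent `i` to some empty node `w`. -/
def Jump {V N T : Type} (G : SimpleGraph V) (τ : N → T) (v v' : N → V) : Prop :=
  ∃ (i : N) (w : V), w ∉ Set.range v ∧ v' = Function.update v i w ∧
    utility G τ v i < utility G τ v' i

section lemmas
open Classical
variable {V N T : Type} [Fintype V] [Fintype N]

/-- ordered pairs of agents in relation `c` at adjacent nodes -/
noncomputable def prs (G : SimpleGraph V) (c : N → N → Prop) (s : N → V) : ℕ :=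
  ∑ j, ∑ l, if c j l ∧ G.Adj (s j) (s l) then 1 else 0

noncomputable def RS (G : SimpleGraph V) (τ : N → T) (t₀ : T) (v : N → V) (i : N) (z : V) : Finset N :=
  univ.filter (fun j => j ≠ i ∧ τ j ≠ t₀ ∧ G.Adj z (v j))

noncomputable def RX (G : SimpleGraph V) (τ : N → T) (t₀ : T) (v : N → V) (i : N) (z : V) : Finset N :=
  univ.filter (fun j => j ≠ i ∧ τ j = t₀ ∧ G.Adj z (v j))

lemma sum_sym (f : N → N → ℕ) (hf : ∀ j l, f j l = f l j) (i : N) (h0 : f i i = 0) :
    ∑ j, ∑ l, f j l = (∑ j ∈ univ.erase i, ∑ l ∈ univ.erase i, f j l) + 2 * ∑ l ∈ univ.erase i, f i l := by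
  have h1 : ∀ j, ∑ l, f j l = f j i + ∑ l ∈ univ.erase i, f j l := fun j =>
    (add_sum_erase univ (fun l => f j l) (mem_univ i)).symm
  have h2 : ∑ j, ∑ l, f j l = (∑ l, f i l) + ∑ j ∈ univ.erase i, ∑ l, f j l :=
    (add_sum_erase univ (fun j => ∑ l, f j l) (mem_univ i)).symm
  rw [h2, h1 i, h0, sum_congr rfl (fun j _ => h1 j), sum_add_distrib,
    sum_congr rfl (fun j _ => hf j i)]
  ring

noncomputable def prs0 (G : SimpleGraph V) (c : N → N → Prop) (v : N → V) (i : N) : ℕ :=
  ∑ j ∈ univ.erase i, ∑ l ∈ univ.erase i, if c j l ∧ G.Adj (v j) (v l) then 1 else 0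

lemma prs_put (G : SimpleGraph V) (c : N → N → Prop) (hc : ∀ j l, c j l ↔ c l j) (v : N → V) (i : N) (y : V)
    (F : Finset N) (hF : ∀ l, l ∈ F ↔ l ≠ i ∧ c i l ∧ G.Adj y (v l)) :
    prs G c (Function.update v i y) = prs0 G c v i + 2 * F.card := by
  have hF2 : F = univ.filter (fun l => l ≠ i ∧ c i l ∧ G.Adj y (v l)) := by
    ext l
    rw [hF]
    simp
  unfold prs prs0
  rw [sum_sym _ _ i]
  · congr 1
    · refine sum_congr rfl fun j hj => sum_congr rfl fun l hl => ?_
      rw [Function.update_of_ne (ne_of_mem_erase hj), Function.update_of_ne (ne_of_mem_erase hl)]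
    · congr 1
      rw [hF2, card_filter, ← add_sum_erase univ _ (mem_univ i)]
      simp only [ne_eq, not_true_eq_false, false_and, if_false, zero_add]
      refine sum_congr rfl fun l hl => ?_
      have hl' := ne_of_mem_erase hl
      rw [Function.update_self, Function.update_of_ne hl']
      simp only [hl', not_false_eq_true, true_and]
  · simp
  · intro j l
    rw [G.adj_comm, hc j l]

lemma prs_le (G : SimpleGraph V) (c : N → N → Prop) (s : N → V) :
    prs G c s ≤ Fintype.card N ^ 2 := by
  unfold prs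
  calc ∑ j, ∑ l, (if c j l ∧ G.Adj (s j) (s l) then 1 else 0) ≤ ∑ _j : N, ∑ _l : N, 1 := by
        refine sum_le_sum fun j _ => sum_le_sum fun l _ => ?_
        split_ifs <;> omega
    _ = Fintype.card N ^ 2 := by simp [sq]

lemma card_RS (G : SimpleGraph V) (τ : N → T) (t₀ : T) (h : ∀ i j, τ i = τ j → τ i ≠ t₀ → i = j)
    (v : N → V) (i : N) (z : V) : ((RS G τ t₀ v i z).image τ).card = (RS G τ t₀ v i z).card := by
  refine card_image_of_injOn ?_
  intro j hj l hl hjl
  unfold RS at hj
  simp only [coe_filter, mem_univ, true_and, Set.mem_ofPred_eq] at hj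
  exact h j l hjl hj.2.1

/-- the utility of an agent of the large type -/
lemma util_X (G : SimpleGraph V) (τ : N → T) (t₀ : T) (h : ∀ i j, τ i = τ j → τ i ≠ t₀ → i = j)
    (v : N → V) (i : N) (hi : τ i = t₀) (y : V) :
    utility G τ (Function.update v i y) i = (RS G τ t₀ v i y).card := by
  rw [← card_RS G τ t₀ h]
  unfold utility
  rw [← Set.ncard_coe_finset]
  congr 1
  ext s
  unfold RS
  simp only [mem_coe, mem_image, mem_filter, mem_univ, true_and, Set.mem_ofPred_eq, Function.update_self]
  constructor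
  · rintro ⟨h1, j, h2, h3⟩
    have hj : j ≠ i := by
      rintro rfl
      exact h1 h2.symm
    rw [Function.update_of_ne hj] at h3
    exact ⟨j, ⟨hj, by rw [h2, ← hi]; exact h1, h3⟩, h2⟩
  · rintro ⟨j, ⟨h1, h2, h3⟩, rfl⟩
    exact ⟨by rw [hi]; exact h2, j, rfl, by rwa [Function.update_of_ne h1]⟩

/-- the utility of an agent of another type -/
lemma util_S (G : SimpleGraph V) (τ : N → T) (t₀ : T) (h : ∀ i j, τ i = τ j → τ i ≠ t₀ → i = j)
    (v : N → V) (i : N) (hi : τ i ≠ t₀) (y : V) :
    utility G τ (Function.update v i y) i =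
      (RS G τ t₀ v i y).card + if 0 < (RX G τ t₀ v i y).card then 1 else 0 := by
  have hmem : ∀ s, (s ≠ τ i ∧ ∃ j, τ j = s ∧
      G.Adj (Function.update v i y i) (Function.update v i y j)) ↔
      (s ∈ (RS G τ t₀ v i y).image τ ∨ (s = t₀ ∧ 0 < (RX G τ t₀ v i y).card)) := by
    intro s
    unfold RS RX
    rw [card_pos]
    simp only [mem_image, mem_filter, mem_univ, true_and, Finset.Nonempty, Function.update_self]
    constructor
    · rintro ⟨h1, j, h2, h3⟩
      have hj : j ≠ i := by
        rintro rfl
        exact h1 h2.symm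
      rw [Function.update_of_ne hj] at h3
      by_cases ht : τ j = t₀
      · exact Or.inr ⟨by rw [← h2, ht], j, hj, ht, h3⟩
      · exact Or.inl ⟨j, ⟨hj, ht, h3⟩, h2⟩
    · rintro (⟨j, ⟨h1, h2, h3⟩, rfl⟩ | ⟨rfl, j, h1, h2, h3⟩)
      · exact ⟨fun he => h1 (h j i he h2), j, rfl, by rwa [Function.update_of_ne h1]⟩
      · exact ⟨fun he => hi he.symm, j, h2, by rwa [Function.update_of_ne h1]⟩
  rw [← card_RS G τ t₀ h]
  unfold utility
  by_cases hx : 0 < (RX G τ t₀ v i y).card
  · rw [if_pos hx, ← card_insert_of_notMem (a := t₀), ← Set.ncard_coe_finset]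
    · congr 1
      ext s
      rw [Set.mem_ofPred_eq, hmem, mem_coe, mem_insert]
      tauto
    · unfold RS
      simp only [mem_image, mem_filter, mem_univ, true_and, not_exists, not_and]
      rintro j ⟨_, h2, _⟩ h3
      exact h2 h3
  · rw [if_neg hx, add_zero, ← Set.ncard_coe_finset]
    congr 1
    ext s
    rw [Set.mem_ofPred_eq, hmem, mem_coe]
    tauto

/-- the potential -/
noncomputable def pot (G : SimpleGraph V) (τ : N → T) (t₀ : T) (s : N → V) : ℕ :=
  prs G (fun j l => τ j ≠ t₀ ∧ τ l ≠ t₀) s * (Fintype.card N ^ 2 + 1) +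
    prs G (fun j l => τ j ≠ t₀ ∨ τ l ≠ t₀) s

lemma pot_le (G : SimpleGraph V) (τ : N → T) (t₀ : T) (s : N → V) :
    pot G τ t₀ s ≤ Fintype.card N ^ 4 + 2 * Fintype.card N ^ 2 := by
  unfold pot
  have h1 := prs_le G (fun j l => τ j ≠ t₀ ∧ τ l ≠ t₀) s
  have h2 := prs_le G (fun j l => τ j ≠ t₀ ∨ τ l ≠ t₀) s
  nlinarith

lemma lex (M A B C D : ℕ) (hB : B ≤ M) (h : A < C ∨ (A = C ∧ B < D)) :
    A * (M + 1) + B < C * (M + 1) + D := by
  rcases h with h | ⟨rfl, h⟩
  · have : (A + 1) * (M + 1) ≤ C * (M + 1) := Nat.mul_le_mul_right _ h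
    nlinarith
  · omega

lemma pot_lt (G : SimpleGraph V) (τ : N → T) (t₀ : T) (h : ∀ i j, τ i = τ j → τ i ≠ t₀ → i = j)
    (v v' : N → V) (hv : Function.Injective v) (hj : Jump G τ v v') :
    pot G τ t₀ v < pot G τ t₀ v' ∧ Function.Injective v' := by
  obtain ⟨i, a, ha, hv', hu⟩ := hj
  have hv'2 : v' = Function.update v i a := by rw [hv']
  have hinj : Function.Injective v' := by
    intro j l hjl
    rw [hv'2] at hjl
    by_cases hj : j = i <;> by_cases hl : l = i
    · rw [hj, hl]
    · subst hj
      rw [Function.update_self, Function.update_of_ne hl] at hjl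
      exact absurd ⟨l, hjl.symm⟩ ha
    · subst hl
      rw [Function.update_self, Function.update_of_ne hj] at hjl
      exact absurd ⟨j, hjl⟩ ha
    · rw [Function.update_of_ne hj, Function.update_of_ne hl] at hjl
      exact hv hjl
  refine ⟨?_, hinj⟩
  have hv0 : v = Function.update v i (v i) := (Function.update_eq_self i v).symm
  have c1 : ∀ j l : N, (τ j ≠ t₀ ∧ τ l ≠ t₀) ↔ (τ l ≠ t₀ ∧ τ j ≠ t₀) := fun j l => and_comm
  have c2 : ∀ j l : N, (τ j ≠ t₀ ∨ τ l ≠ t₀) ↔ (τ l ≠ t₀ ∨ τ j ≠ t₀) := fun j l => or_comm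
  unfold pot
  refine lex _ _ _ _ _ (prs_le _ _ _) ?_
  by_cases hi : τ i = t₀
  · -- an agent of the large type
    have u1 := util_X G τ t₀ h v i hi (v i)
    have u2 := util_X G τ t₀ h v i hi a
    rw [← hv0] at u1
    rw [← hv'2] at u2
    rw [u1, u2] at hu
    have q1 : ∀ y, prs G (fun j l => τ j ≠ t₀ ∧ τ l ≠ t₀) (Function.update v i y) =
        prs0 G (fun j l => τ j ≠ t₀ ∧ τ l ≠ t₀) v i + 2 * (∅ : Finset N).card := fun y =>
      prs_put G _ c1 v i y ∅ (fun l => by
        simp only [notMem_empty, false_iff]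
        rintro ⟨_, ⟨h1, _⟩, _⟩
        exact h1 hi)
    have q2 : ∀ y, prs G (fun j l => τ j ≠ t₀ ∨ τ l ≠ t₀) (Function.update v i y) =
        prs0 G (fun j l => τ j ≠ t₀ ∨ τ l ≠ t₀) v i + 2 * (RS G τ t₀ v i y).card := fun y =>
      prs_put G _ c2 v i y _ (fun l => by
        unfold RS
        simp only [mem_filter, mem_univ, true_and]
        tauto)
    have p1 := q1 (v i)
    have p2 := q2 (v i)
    have p3 := q1 a
    have p4 := q2 a
    rw [← hv0] at p1 p2
    rw [← hv'2] at p3 p4
    right
    constructor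
    · rw [p1, p3]
    · rw [p2, p4]
      omega
  · have u1 := util_S G τ t₀ h v i hi (v i)
    have u2 := util_S G τ t₀ h v i hi a
    rw [← hv0] at u1
    rw [← hv'2] at u2
    rw [u1, u2] at hu
    have q1 : ∀ y, prs G (fun j l => τ j ≠ t₀ ∧ τ l ≠ t₀) (Function.update v i y) =
        prs0 G (fun j l => τ j ≠ t₀ ∧ τ l ≠ t₀) v i + 2 * (RS G τ t₀ v i y).card := fun y =>
      prs_put G _ c1 v i y _ (fun l => by
        unfold RS
        simp only [mem_filter, mem_univ, true_and]
        tauto)
    have hd : ∀ y, Disjoint (RS G τ t₀ v i y) (RX G τ t₀ v i y) := by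
      intro y
      unfold RS RX
      rw [disjoint_filter]
      tauto
    have q2 : ∀ y, prs G (fun j l => τ j ≠ t₀ ∨ τ l ≠ t₀) (Function.update v i y) =
        prs0 G (fun j l => τ j ≠ t₀ ∨ τ l ≠ t₀) v i +
          2 * (RS G τ t₀ v i y ∪ RX G τ t₀ v i y).card := fun y =>
      prs_put G _ c2 v i y _ (fun l => by
        unfold RS RX
        simp only [mem_filter, mem_univ, true_and, mem_union]
        tauto)
    have p1 := q1 (v i)
    have p2 := q2 (v i)
    have p3 := q1 a
    have p4 := q2 a
    rw [← hv0] at p1 p2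
    rw [← hv'2] at p3 p4
    rw [card_union_of_disjoint (hd _)] at p2 p4
    rw [p1, p2, p3, p4]
    split_ifs at hu <;> omega

end lemmas

/-- An equilibrium: an assignment of the agents to pairwise distinct nodes in which no agent has an
improving jump to an empty node. -/
def IsEquilibrium {V N T : Type} (G : SimpleGraph V) (τ : N → T) (v : N → V) : Prop :=
  Function.Injective v ∧ ∀ v', ¬ Jump G τ v v'

/-- **Variety-seeking jump games in which all types but one are singletons.** `G` is a graph on `V`, `N` the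
set of the agents, `τ i` the type of the agent `i`, and `|N| ≤ |V|`; two different agents of the same type
have the type `t₀`. -/
theorem result {V N T : Type} [Fintype V] [Fintype N] (G : SimpleGraph V) (τ : N → T)
    (hcard : Fintype.card N ≤ Fintype.card V) (t₀ : T) (h : ∀ i j, τ i = τ j → τ i ≠ t₀ → i = j) :
    -- every sequence of improving jumps has at most `n ^ 4 + 2 n ^ 2` members
    (∀ (L : ℕ) (s : ℕ → N → V), Function.Injective (s 0) → (∀ n < L, Jump G τ (s n) (s (n + 1))) →
      L ≤ Fintype.card N ^ 4 + 2 * Fintype.card N ^ 2) ∧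
    -- from every assignment improving jumps lead to an equilibrium
    (∀ v : N → V, Function.Injective v → ∃ v', Relation.ReflTransGen (Jump G τ) v v' ∧
      IsEquilibrium G τ v') ∧
    -- there is an equilibrium
    ∃ v, IsEquilibrium G τ v := by
  have h1 : ∀ (L : ℕ) (s : ℕ → N → V), Function.Injective (s 0) →
      (∀ n < L, Jump G τ (s n) (s (n + 1))) → L ≤ Fintype.card N ^ 4 + 2 * Fintype.card N ^ 2 := by
    intro L s h0 hs
    have key : ∀ n ≤ L, Function.Injective (s n) ∧ n ≤ pot G τ t₀ (s n) := by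
      intro n
      induction n with
      | zero => exact fun _ => ⟨h0, Nat.zero_le _⟩
      | succ n ih =>
        intro hn
        obtain ⟨h2, h3⟩ := ih (by omega)
        obtain ⟨h4, h5⟩ := pot_lt G τ t₀ h (s n) (s (n + 1)) h2 (hs n (by omega))
        exact ⟨h5, by omega⟩
    exact (key L le_rfl).2.trans (pot_le G τ t₀ _)
  have h2 : ∀ v : N → V, Function.Injective v → ∃ v', Relation.ReflTransGen (Jump G τ) v v' ∧
      IsEquilibrium G τ v' := by
    have key : ∀ (m : ℕ) (v : N → V), Function.Injective v →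
        Fintype.card N ^ 4 + 2 * Fintype.card N ^ 2 ≤ pot G τ t₀ v + m →
        ∃ v', Relation.ReflTransGen (Jump G τ) v v' ∧ IsEquilibrium G τ v' := by
      intro m
      induction m with
      | zero =>
        intro v hv hm
        refine ⟨v, Relation.ReflTransGen.refl, hv, fun v' hj => ?_⟩
        have h3 := (pot_lt G τ t₀ h v v' hv hj).1
        have h4 := pot_le G τ t₀ v'
        omega
      | succ m ih =>
        intro v hv hm
        by_cases hex : ∃ v', Jump G τ v v'
        · obtain ⟨v', hj⟩ := hex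
          obtain ⟨h3, h4⟩ := pot_lt G τ t₀ h v v' hv hj
          obtain ⟨v'', h5, h6⟩ := ih v' h4 (by omega)
          exact ⟨v'', Relation.ReflTransGen.head hj h5, h6⟩
        · push Not at hex
          exact ⟨v, Relation.ReflTransGen.refl, hv, hex⟩
    exact fun v hv => key _ v hv (Nat.le_add_left _ _)
  refine ⟨h1, h2, ?_⟩
  obtain ⟨f⟩ : Nonempty (N ↪ V) := Function.Embedding.nonempty_of_card_le hcard
  obtain ⟨v', _, h⟩ := h2 f f.injective
  exact ⟨v', h⟩

end Pool.Agent.Results.MP_1e742c_lc.OneLargeType
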