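import Mathlib

/-!
# Variety-seeking jump games on graphs of maximum degree at most three with two empty nodes
-/

set_option autoImplicit false
set_option linter.unusedSectionVars false

namespace Pool.Agent.Results.MP_1e742c_lc.SubcubicTwoEmpty

open Finset

/-- The utility of agent `i` in the assignment `v`: the number of types other than its own type which occur
among the agents at the neighbours of its node. -/
noncomputable def utility {V N T : Type} (G : SimpleGraph V) (τ : N → T) (v : N → V) (i : N) : ℕ :=
  {s : T | s ≠ τ i ∧ ∃ j, τ j = s ∧ G.Adj (v i) (v j)}.ncard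

open Classical in
/-- `v'` arises from `v` by an improving jump of some agent `i` to some empty node `w`. -/
def Jump {V N T : Type} (G : SimpleGraph V) (τ : N → T) (v v' : N → V) : Prop :=
  ∃ (i : N) (w : V), w ∉ Set.range v ∧ v' = Function.update v i w ∧
    utility G τ v i < utility G τ v' i

section lemmas
open Classical
variable {V N T : Type} [Fintype V] [Fintype N]

noncomputable def emp (s : N → V) : Finset V := univ.filter (fun z => z ∉ Set.range s)

noncomputable def around (G : SimpleGraph V) (τ : N → T) (s : N → V) (z : V) : Finset T :=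
  (univ.filter (fun j => G.Adj z (s j))).image τ

noncomputable def dg (G : SimpleGraph V) (z : V) : ℕ := (univ.filter (fun y => G.Adj z y)).card

noncomputable def mono (G : SimpleGraph V) (τ : N → T) (s : N → V) : ℕ :=
  ∑ j, ∑ l, if τ j = τ l ∧ G.Adj (s j) (s l) then 1 else 0

noncomputable def pot (G : SimpleGraph V) (τ : N → T) (s : N → V) : ℕ :=
  4 * ∑ z ∈ emp s, (around G τ s z).card + 2 * mono G τ s + 2 * ∑ z ∈ emp s, dg G z +
    if ∃ z ∈ emp s, ∃ z' ∈ emp s, G.Adj z z' then 1 else 0

noncomputable def P (G : SimpleGraph V) (τ : N → T) (v : N → V) (i : N) (z : V) : Finset N :=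
  univ.filter (fun j => j ≠ i ∧ τ j = τ i ∧ G.Adj z (v j))

noncomputable def R (G : SimpleGraph V) (τ : N → T) (v : N → V) (i : N) (z : V) : Finset N :=
  univ.filter (fun j => j ≠ i ∧ τ j ≠ τ i ∧ G.Adj z (v j))

noncomputable def Q (G : SimpleGraph V) (τ : N → T) (v : N → V) (i : N) (z : V) : Finset T :=
  (R G τ v i z).image τ

lemma mem_Q (G : SimpleGraph V) (τ : N → T) (v : N → V) (i : N) (z : V) (s : T) :
    s ∈ Q G τ v i z ↔ s ≠ τ i ∧ ∃ j, j ≠ i ∧ τ j = s ∧ G.Adj z (v j) := by
  unfold Q R
  simp only [mem_image, mem_filter, mem_univ, true_and]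
  constructor
  · rintro ⟨j, ⟨h1, h2, h3⟩, rfl⟩
    exact ⟨h2, j, h1, rfl, h3⟩
  · rintro ⟨h2, j, h1, rfl, h3⟩
    exact ⟨j, ⟨h1, h2, h3⟩, rfl⟩

lemma around_put (G : SimpleGraph V) (τ : N → T) (v : N → V) (i : N) (y z : V) :
    (around G τ (Function.update v i y) z).card =
      (Q G τ v i z).card + if ((P G τ v i z).Nonempty ∨ G.Adj z y) then 1 else 0 := by
  have hmem : ∀ s, s ∈ around G τ (Function.update v i y) z ↔
      (s ∈ Q G τ v i z ∨ (s = τ i ∧ ((P G τ v i z).Nonempty ∨ G.Adj z y))) := by
    intro s
    rw [mem_Q]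
    unfold around P
    simp only [mem_image, mem_filter, mem_univ, true_and, Finset.Nonempty]
    constructor
    · rintro ⟨j, h1, rfl⟩
      by_cases hj : j = i
      · subst hj
        rw [Function.update_self] at h1
        exact Or.inr ⟨rfl, Or.inr h1⟩
      · rw [Function.update_of_ne hj] at h1
        by_cases ht : τ j = τ i
        · exact Or.inr ⟨ht, Or.inl ⟨j, hj, ht, h1⟩⟩
        · exact Or.inl ⟨ht, j, hj, rfl, h1⟩
    · rintro (⟨h1, j, h2, h3, h4⟩ | ⟨rfl, ⟨j, h1, h2, h3⟩ | h⟩)
      · exact ⟨j, by rwa [Function.update_of_ne h2], h3⟩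
      · exact ⟨j, by rwa [Function.update_of_ne h1], h2⟩
      · exact ⟨i, by rwa [Function.update_self], rfl⟩
  by_cases h : (P G τ v i z).Nonempty ∨ G.Adj z y
  · rw [if_pos h]
    have : around G τ (Function.update v i y) z = insert (τ i) (Q G τ v i z) := by
      ext s
      rw [hmem, mem_insert]
      tauto
    rw [this, card_insert_of_notMem]
    rw [mem_Q]
    tauto
  · rw [if_neg h]
    have : around G τ (Function.update v i y) z = Q G τ v i z := by
      ext s
      rw [hmem]
      tauto
    rw [this, add_zero]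

lemma util_put (G : SimpleGraph V) (τ : N → T) (v : N → V) (i : N) (y : V) :
    utility G τ (Function.update v i y) i = (Q G τ v i y).card := by
  unfold utility
  rw [← Set.ncard_coe_finset]
  congr 1
  ext s
  rw [mem_coe, mem_Q, Set.mem_ofPred_eq, Function.update_self]
  constructor
  · rintro ⟨h1, j, h2, h3⟩
    have hj : j ≠ i := by
      rintro rfl
      exact h1 h2.symm
    rw [Function.update_of_ne hj] at h3
    exact ⟨h1, j, hj, h2, h3⟩
  · rintro ⟨h1, j, h2, h3, h4⟩
    exact ⟨h1, j, h3, by rwa [Function.update_of_ne h2]⟩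

lemma sum_sym (f : N → N → ℕ) (hf : ∀ j l, f j l = f l j) (i : N) (h0 : f i i = 0) :
    ∑ j, ∑ l, f j l = (∑ j ∈ univ.erase i, ∑ l ∈ univ.erase i, f j l) + 2 * ∑ l ∈ univ.erase i, f i l := by
  have h1 : ∀ j, ∑ l, f j l = f j i + ∑ l ∈ univ.erase i, f j l := fun j =>
    (add_sum_erase univ (fun l => f j l) (mem_univ i)).symm
  have h2 : ∑ j, ∑ l, f j l = (∑ l, f i l) + ∑ j ∈ univ.erase i, ∑ l, f j l :=
    (add_sum_erase univ (fun j => ∑ l, f j l) (mem_univ i)).symm
  rw [h2, h1 i, h0, sum_congr rfl (fun j _ => h1 j), sum_add_distrib,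
    sum_congr rfl (fun j _ => hf j i)]
  ring

lemma mono_put (G : SimpleGraph V) (τ : N → T) (v : N → V) (i : N) (y : V) :
    mono G τ (Function.update v i y) =
      (∑ j ∈ univ.erase i, ∑ l ∈ univ.erase i, if τ j = τ l ∧ G.Adj (v j) (v l) then 1 else 0) +
        2 * (P G τ v i y).card := by
  unfold mono
  rw [sum_sym _ _ i]
  · congr 1
    · refine sum_congr rfl fun j hj => sum_congr rfl fun l hl => ?_
      rw [Function.update_of_ne (ne_of_mem_erase hj), Function.update_of_ne (ne_of_mem_erase hl)]
    · congr 1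
      unfold P
      rw [card_filter, ← add_sum_erase univ _ (mem_univ i)]
      simp only [ne_eq, not_true_eq_false, false_and, if_false, zero_add]
      refine sum_congr rfl fun l hl => ?_
      have hl' := ne_of_mem_erase hl
      rw [Function.update_self, Function.update_of_ne hl']
      simp only [hl', not_false_eq_true, true_and]
      congr 1
      rw [eq_comm (a := τ i)]
  · simp
  · intro j l
    rw [G.adj_comm, eq_comm (a := τ j)]

lemma dg_eq (G : SimpleGraph V) (τ : N → T) (v : N → V) (hv : Function.Injective v) (i : N) (a b y : V)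
    (hab : a ≠ b) (hE : ∀ z, z ∉ Set.range v ↔ z = a ∨ z = b) :
    dg G y = (P G τ v i y).card + (R G τ v i y).card + (if G.Adj y (v i) then 1 else 0) +
      (if G.Adj y a then 1 else 0) + (if G.Adj y b then 1 else 0) := by
  have hu : (univ : Finset V) = (univ.image v) ∪ {a, b} := by
    ext z
    simp only [mem_univ, mem_union, mem_image, true_and, mem_insert, mem_singleton, true_iff]
    by_cases h : z ∈ Set.range v
    · exact Or.inl h
    · exact Or.inr ((hE z).1 h)
  have ha : a ∉ Set.range v := (hE a).2 (Or.inl rfl)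
  have hb : b ∉ Set.range v := (hE b).2 (Or.inr rfl)
  have hd : Disjoint (univ.image v) ({a, b} : Finset V) := by
    rw [Finset.disjoint_left]
    intro z hz
    simp only [mem_image, mem_univ, true_and] at hz
    simp only [mem_insert, mem_singleton]
    rintro (rfl | rfl)
    · exact ha hz
    · exact hb hz
  unfold dg
  rw [card_filter, hu, sum_union hd, sum_image (fun x _ y _ h => hv h), sum_pair hab,
    ← add_sum_erase univ _ (mem_univ i)]
  have h1 : ∑ l ∈ univ.erase i, (if G.Adj y (v l) then 1 else 0) =
      (P G τ v i y).card + (R G τ v i y).card := by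
    unfold P R
    rw [card_filter, card_filter, ← sum_add_distrib, ← add_sum_erase univ _ (mem_univ i)]
    simp only [ne_eq, not_true_eq_false, false_and, if_false, zero_add]
    refine sum_congr rfl fun l hl => ?_
    have hl' := ne_of_mem_erase hl
    by_cases h1 : τ l = τ i <;> by_cases h2 : G.Adj y (v l) <;> simp [h1, h2, hl']
  rw [h1]
  ring

lemma arith (p q r ua ux ub na nx al be ga R0 db da dx : ℕ) (hal : al ≤ 1) (hbe : be ≤ 1) (hga : ga ≤ 1)
    (h1 : ux < ua) (h2 : ua ≤ na) (h3 : ux ≤ nx) (h4 : ux = 0 → nx = 0)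
    (hda : da = p + na + al + be) (hdx : dx = q + nx + al + ga) (h5 : da ≤ 3) (h6 : dx ≤ 3) :
    4 * ((ux + if (0 < q ∨ al = 1) then 1 else 0) + (ub + if (0 < r ∨ be = 1) then 1 else 0)) +
      2 * (R0 + 2 * p) + 2 * (dx + db) + ga <
    4 * ((ua + if (0 < p ∨ al = 1) then 1 else 0) + (ub + if (0 < r ∨ ga = 1) then 1 else 0)) +
      2 * (R0 + 2 * q) + 2 * (da + db) + be := by
  split_ifs <;> omega

lemma pot_lt (G : SimpleGraph V) (τ : N → T) (v v' : N → V) (hv : Function.Injective v)
    (hcard : (emp v).card = 2) (hdeg : ∀ x, dg G x ≤ 3) (h : Jump G τ v v') :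
    pot G τ v' < pot G τ v ∧ Function.Injective v' ∧ (emp v').card = 2 := by
  obtain ⟨i, a, ha, hv', hu⟩ := h
  have hv'2 : v' = Function.update v i a := by
    rw [hv']
  have haE : a ∈ emp v := by
    unfold emp
    simp only [mem_filter, mem_univ, true_and]
    exact ha
  obtain ⟨b, hb⟩ : ∃ b, (emp v).erase a = {b} := by
    rw [← card_eq_one, card_erase_of_mem haE, hcard]
  have hEv : emp v = {a, b} := by
    rw [← insert_erase haE, hb]
  have hab : a ≠ b := by
    rintro rfl
    have : a ∈ (emp v).erase a := by rw [hb]; exact mem_singleton_self a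
    simp at this
  have hE : ∀ z, z ∉ Set.range v ↔ z = a ∨ z = b := by
    intro z
    have : z ∈ emp v ↔ z = a ∨ z = b := by rw [hEv]; simp
    rw [← this]
    unfold emp
    simp
  have hbr : b ∉ Set.range v := (hE b).2 (Or.inr rfl)
  have hxa : v i ≠ a := fun h => ha ⟨i, h⟩
  have hxb : v i ≠ b := fun h => hbr ⟨i, h⟩
  have hEv' : emp v' = {v i, b} := by
    ext z
    unfold emp
    rw [hv'2]
    simp only [mem_filter, mem_univ, true_and, mem_insert, mem_singleton, Set.mem_range, not_exists]
    constructor
    · intro hz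
      by_cases hzv : z ∈ Set.range v
      · obtain ⟨j, rfl⟩ := hzv
        by_cases hj : j = i
        · left; rw [hj]
        · exfalso
          exact hz j (Function.update_of_ne hj _ _)
      · rcases (hE z).1 hzv with rfl | rfl
        · exfalso
          exact hz i (Function.update_self _ _ _)
        · right; rfl
    · rintro (rfl | rfl) j hj
      · by_cases hji : j = i
        · subst hji
          rw [Function.update_self] at hj
          exact hxa hj.symm
        · rw [Function.update_of_ne hji] at hj
          exact hji (hv hj)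
      · by_cases hji : j = i
        · subst hji
          rw [Function.update_self] at hj
          exact hab hj
        · rw [Function.update_of_ne hji] at hj
          exact hbr ⟨j, hj⟩
  have hinj : Function.Injective v' := by
    intro j l hjl
    rw [hv'2] at hjl
    by_cases hj : j = i <;> by_cases hl : l = i
    · rw [hj, hl]
    · subst hj
      rw [Function.update_self, Function.update_of_ne hl] at hjl
      exact absurd ⟨l, hjl.symm⟩ ha
    · subst hl
      rw [Function.update_self, Function.update_of_ne hj] at hjl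
      exact absurd ⟨j, hjl⟩ ha
    · rw [Function.update_of_ne hj, Function.update_of_ne hl] at hjl
      exact hv hjl
  refine ⟨?_, hinj, by rw [hEv', card_pair hxb]⟩
  have hv0 : v = Function.update v i (v i) := (Function.update_eq_self i v).symm
  have hu1 : utility G τ v i = (Q G τ v i (v i)).card := by
    conv_lhs => rw [hv0]
    exact util_put G τ v i (v i)
  have hu2 : utility G τ v' i = (Q G τ v i a).card := by
    rw [hv'2]
    exact util_put G τ v i a
  rw [hu1, hu2] at hu
  have hm1 := mono_put G τ v i (v i)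
  rw [← hv0] at hm1
  have hm2 := mono_put G τ v i a
  rw [← hv'2] at hm2
  have ar1 : ∀ z, (around G τ v z).card =
      (Q G τ v i z).card + if ((P G τ v i z).Nonempty ∨ G.Adj z (v i)) then 1 else 0 := by
    intro z
    conv_lhs => rw [hv0]
    exact around_put G τ v i (v i) z
  have ar2 : ∀ z, (around G τ v' z).card =
      (Q G τ v i z).card + if ((P G τ v i z).Nonempty ∨ G.Adj z a) then 1 else 0 := by
    intro z
    rw [hv'2]
    exact around_put G τ v i a z
  have hda := dg_eq G τ v hv i a b a hab hE
  have hdx := dg_eq G τ v hv i a b (v i) hab hE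
  simp only [SimpleGraph.irrefl, if_false, add_zero] at hda hdx
  have hQR : ∀ z, (Q G τ v i z).card ≤ (R G τ v i z).card := fun z => card_image_le
  have hQ0 : ∀ z, (Q G τ v i z).card = 0 → (R G τ v i z).card = 0 := by
    intro z hz
    rw [card_eq_zero] at hz ⊢
    unfold Q at hz
    exact image_eq_empty.1 hz
  have key := arith (P G τ v i a).card (P G τ v i (v i)).card (P G τ v i b).card
    (Q G τ v i a).card (Q G τ v i (v i)).card (Q G τ v i b).card
    (R G τ v i a).card (R G τ v i (v i)).card
    (if G.Adj (v i) a then 1 else 0) (if G.Adj a b then 1 else 0) (if G.Adj (v i) b then 1 else 0)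
    (∑ j ∈ univ.erase i, ∑ l ∈ univ.erase i, if τ j = τ l ∧ G.Adj (v j) (v l) then 1 else 0)
    (dg G b) (dg G a) (dg G (v i)) (by split_ifs <;> omega) (by split_ifs <;> omega)
    (by split_ifs <;> omega) hu (hQR a) (hQR (v i)) (hQ0 (v i))
    (by rw [hda, G.adj_comm a (v i)]) hdx (hdeg a) (hdeg (v i))
  unfold pot
  rw [hEv, hEv', sum_pair hxb, sum_pair hxb, sum_pair hab, sum_pair hab, hm1, hm2, ar1, ar1, ar2, ar2]
  have e1 : (∃ z ∈ ({v i, b} : Finset V), ∃ z' ∈ ({v i, b} : Finset V), G.Adj z z') ↔ G.Adj (v i) b := by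
    simp [G.adj_comm b (v i)]
  have e2 : (∃ z ∈ ({a, b} : Finset V), ∃ z' ∈ ({a, b} : Finset V), G.Adj z z') ↔ G.Adj a b := by
    simp [G.adj_comm b a]
  rw [if_congr e1 rfl rfl, if_congr e2 rfl rfl]
  have n1 : ∀ z, (P G τ v i z).Nonempty ↔ 0 < (P G τ v i z).card := fun z => card_pos.symm
  have n2 : ∀ z w, (if G.Adj z w then 1 else 0) = 1 ↔ G.Adj z w := fun z w => by simp
  simp only [n1, G.adj_comm a (v i), G.adj_comm b (v i), G.adj_comm b a]
  simp only [n2] at key
  exact key

lemma pot_le (G : SimpleGraph V) (τ : N → T) (v : N → V) (hv : Function.Injective v)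
    (hcard : (emp v).card = 2) (hdeg : ∀ x, dg G x ≤ 3) :
    pot G τ v ≤ 6 * Fintype.card N + 37 := by
  have h1 : ∀ z, (univ.filter (fun j => G.Adj z (v j))).card ≤ 3 := by
    intro z
    refine le_trans ?_ (hdeg z)
    unfold dg
    refine card_le_card_of_injOn v ?_ (fun x _ y _ h => hv h)
    intro j hj
    simpa using hj
  have h2 : ∑ z ∈ emp v, (around G τ v z).card ≤ 6 := by
    calc ∑ z ∈ emp v, (around G τ v z).card ≤ ∑ z ∈ emp v, 3 :=
          sum_le_sum fun z _ => card_image_le.trans (h1 z)
      _ = 6 := by rw [sum_const, hcard]; rfl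
  have h3 : ∑ z ∈ emp v, dg G z ≤ 6 := by
    calc ∑ z ∈ emp v, dg G z ≤ ∑ z ∈ emp v, 3 := sum_le_sum fun z _ => hdeg z
      _ = 6 := by rw [sum_const, hcard]; rfl
  have h4 : mono G τ v ≤ 3 * Fintype.card N := by
    unfold mono
    calc ∑ j, ∑ l, (if τ j = τ l ∧ G.Adj (v j) (v l) then 1 else 0) ≤ ∑ _j : N, 3 := by
          refine sum_le_sum fun j _ => ?_
          rw [← card_filter]
          refine le_trans (card_le_card ?_) (h1 (v j))
          intro l hl
          simp only [mem_filter, mem_univ, true_and] at hl ⊢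
          exact hl.2
      _ = 3 * Fintype.card N := by rw [sum_const, card_univ, smul_eq_mul, mul_comm]
  unfold pot
  split_ifs <;> omega

lemma card_emp (v : N → V) (hv : Function.Injective v)
    (hcard : Fintype.card V = Fintype.card N + 2) : (emp v).card = 2 := by
  have h1 : emp v = univ \ univ.image v := by
    ext z
    unfold emp
    simp
  rw [h1, card_sdiff_of_subset (subset_univ _), card_image_of_injective _ hv, card_univ, card_univ, hcard]
  omega

end lemmas

/-- An equilibrium: an assignment of the agents to pairwise distinct nodes in which no agent has an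
improving jump to an empty node. -/
def IsEquilibrium {V N T : Type} (G : SimpleGraph V) (τ : N → T) (v : N → V) : Prop :=
  Function.Injective v ∧ ∀ v', ¬ Jump G τ v v'

/-- **Variety-seeking jump games on graphs of maximum degree at most three with two empty nodes.**
`G` is a graph on `V`, `N` the set of the agents, `τ i` the type of the agent `i`, and `|V| = |N| + 2`. -/
theorem result {V N T : Type} [Fintype V] [Fintype N] (G : SimpleGraph V) (τ : N → T)
    (hcard : Fintype.card V = Fintype.card N + 2) (hdeg : ∀ x, {y | G.Adj x y}.ncard ≤ 3) :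
    -- every sequence of improving jumps has at most `6 n + 37` members
    (∀ (L : ℕ) (s : ℕ → N → V), Function.Injective (s 0) → (∀ n < L, Jump G τ (s n) (s (n + 1))) →
      L ≤ 6 * Fintype.card N + 37) ∧
    -- from every assignment improving jumps lead to an equilibrium
    (∀ v : N → V, Function.Injective v → ∃ v', Relation.ReflTransGen (Jump G τ) v v' ∧
      IsEquilibrium G τ v') ∧
    -- there is an equilibrium
    ∃ v, IsEquilibrium G τ v := by
  classical
  have hdeg' : ∀ x, dg G x ≤ 3 := by
    intro x
    refine le_trans (le_of_eq ?_) (hdeg x)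
    unfold dg
    rw [← Set.ncard_coe_finset]
    congr 1
    ext y
    simp
  have h1 : ∀ (L : ℕ) (s : ℕ → N → V), Function.Injective (s 0) →
      (∀ n < L, Jump G τ (s n) (s (n + 1))) → L ≤ 6 * Fintype.card N + 37 := by
    intro L s h0 hs
    have key : ∀ n ≤ L, Function.Injective (s n) ∧ pot G τ (s n) + n ≤ pot G τ (s 0) := by
      intro n
      induction n with
      | zero => exact fun _ => ⟨h0, le_rfl⟩
      | succ n ih =>
        intro hn
        obtain ⟨h2, h3⟩ := ih (by omega)
        obtain ⟨h4, h5, _⟩ := pot_lt G τ (s n) (s (n + 1)) h2 (card_emp _ h2 hcard) hdeg' (hs n (by omega))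
        exact ⟨h5, by omega⟩
    have h2 := (key L le_rfl).2
    have h3 := pot_le G τ (s 0) h0 (card_emp _ h0 hcard) hdeg'
    omega
  have h2 : ∀ v : N → V, Function.Injective v → ∃ v', Relation.ReflTransGen (Jump G τ) v v' ∧
      IsEquilibrium G τ v' := by
    have key : ∀ (m : ℕ) (v : N → V), Function.Injective v → pot G τ v ≤ m →
        ∃ v', Relation.ReflTransGen (Jump G τ) v v' ∧ IsEquilibrium G τ v' := by
      intro m
      induction m with
      | zero =>
        intro v hv hm
        refine ⟨v, Relation.ReflTransGen.refl, hv, fun v' hj => ?_⟩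
        have := (pot_lt G τ v v' hv (card_emp _ hv hcard) hdeg' hj).1
        omega
      | succ m ih =>
        intro v hv hm
        by_cases h : ∃ v', Jump G τ v v'
        · obtain ⟨v', hj⟩ := h
          obtain ⟨h3, h4, _⟩ := pot_lt G τ v v' hv (card_emp _ hv hcard) hdeg' hj
          obtain ⟨v'', h5, h6⟩ := ih v' h4 (by omega)
          exact ⟨v'', Relation.ReflTransGen.head hj h5, h6⟩
        · push Not at h
          exact ⟨v, Relation.ReflTransGen.refl, hv, h⟩
    exact fun v hv => key _ v hv le_rfl
  refine ⟨h1, h2, ?_⟩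
  obtain ⟨f⟩ : Nonempty (N ↪ V) := Function.Embedding.nonempty_of_card_le (by omega)
  obtain ⟨v', _, h⟩ := h2 f f.injective
  exact ⟨v', h⟩

end Pool.Agent.Results.MP_1e742c_lc.SubcubicTwoEmpty
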